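import Pool.Agent.K7.H80.MD.Main

/-!
# The multiset dimension of `G(n,p)` is infinite w.h.p. for `1/3 < x < 4/9`

Definitions: `Pr` and `Resolving` in `Pool.Agent.K7.H80.MD.Stm`.
-/

set_option autoImplicit false

namespace Pool.Agent.Results.MP_437110_pr.InfiniteRange

open Filter Pool.Agent.K7.H80.MD

theorem result : ∀ x : ℝ, 1 / 3 < x → x < 4 / 9 →
    Tendsto (fun n : ℕ => Pr n ((n : ℝ) ^ x / (n - 1))
      (fun G => G.Connected ∧ ∃ W : Finset (Fin n), Resolving G W)) atTop (nhds 0) :=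
  Pool.Agent.K7.H80.MD.main (Pool.Agent.K7.H37.MDMIX.t Pool.Agent.K7.H77.MDPROD.t)
    (Pool.Agent.K7.H79.MDDEG.t Pool.Agent.K7.H77.MDPROD.t)
    (Pool.Agent.K7.H12.MDDIAM.t Pool.Agent.K7.H77.MDPROD.t)
    (Pool.Agent.K7.H90.MDMULT.t Pool.Agent.K7.H77.MDPROD.t)
    (Pool.Agent.K7.H3.MDDET.t Pool.Agent.K7.H92.MDDA.t Pool.Agent.K7.H15.MDDB.t
      Pool.Agent.K7.H78.MDDC.t)
    Pool.Agent.K7.H20.MDASY.t

end Pool.Agent.Results.MP_437110_pr.InfiniteRange
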